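import Pool.Agent.V8H85.Iso.Defs

set_option autoImplicit false
set_option linter.unusedSectionVars false

/-! Isometries of definite forms over group rings: basic tools. -/

namespace Pool.Agent.V8H85.Iso

open MonoidAlgebra Matrix

section bar

variable {R : Type*} [Ring R] [StarRing R] {Γ : Type*} [Group Γ]

theorem coeff_rbar (a : MonoidAlgebra R Γ) (g : Γ) : (rbar a).coeff g = star (a.coeff g⁻¹) := by
  classical
  unfold rbar
  rw [coeff_sum, Finsupp.finsetSum_apply, Finset.sum_eq_single g⁻¹]
  · rw [coeff_single, inv_inv, Finsupp.single_eq_same]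
  · intro b _ hb
    rw [coeff_single, Finsupp.single_eq_of_ne]
    intro h
    exact hb (by rw [h, inv_inv])
  · intro h
    rw [Finsupp.notMem_support_iff.1 h, star_zero, MonoidAlgebra.single_zero]
    rfl

theorem ext_coeff {a b : MonoidAlgebra R Γ} (h : ∀ g, a.coeff g = b.coeff g) : a = b :=
  MonoidAlgebra.ext (Finsupp.ext h)

theorem rbar_zero : rbar (0 : MonoidAlgebra R Γ) = 0 :=
  ext_coeff fun g => by rw [coeff_rbar]; exact star_zero R

theorem rbar_add (a b : MonoidAlgebra R Γ) : rbar (a + b) = rbar a + rbar b :=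
  ext_coeff fun g => by
    rw [coeff_rbar, coeff_add, coeff_add, Finsupp.add_apply, Finsupp.add_apply, coeff_rbar,
      coeff_rbar, star_add]

theorem rbar_single (g : Γ) (r : R) : rbar (single g r) = single g⁻¹ (star r) := by
  classical
  refine ext_coeff fun k => ?_
  rw [coeff_rbar, coeff_single, coeff_single, Finsupp.single_apply, Finsupp.single_apply]
  by_cases h : g = k⁻¹
  · rw [if_pos h, if_pos (by rw [h, inv_inv])]
  · rw [if_neg h, if_neg (fun h2 => h (by rw [← h2, inv_inv])), star_zero]

theorem rbar_rbar (a : MonoidAlgebra R Γ) : rbar (rbar a) = a :=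
  ext_coeff fun g => by rw [coeff_rbar, coeff_rbar, star_star, inv_inv]

theorem rbar_mul (a b : MonoidAlgebra R Γ) : rbar (a * b) = rbar b * rbar a := by
  induction a using MonoidAlgebra.induction_linear with
  | zero => rw [zero_mul, rbar_zero, mul_zero]
  | add x y hx hy => rw [add_mul, rbar_add, rbar_add, mul_add, hx, hy]
  | single g n =>
    induction b using MonoidAlgebra.induction_linear with
    | zero => rw [mul_zero, rbar_zero, zero_mul]
    | add x y hx hy => rw [mul_add, rbar_add, rbar_add, add_mul, hx, hy]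
    | single k m =>
      rw [single_mul_single, rbar_single, rbar_single, rbar_single, single_mul_single, _root_.mul_inv_rev,
        star_mul]

/-- the involution as an additive map -/
noncomputable def rbarHom : MonoidAlgebra R Γ →+ MonoidAlgebra R Γ where
  toFun := rbar
  map_zero' := rbar_zero
  map_add' := rbar_add

theorem rbar_sum {α : Type*} (s : Finset α) (f : α → MonoidAlgebra R Γ) :
    rbar (∑ i ∈ s, f i) = ∑ i ∈ s, rbar (f i) := map_sum (rbarHom (R := R) (Γ := Γ)) f s

end bar

/-- A positive definite symmetric integral form on an abelian group. -/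
structure Lat (L : Type*) [AddCommGroup L] where
  B : L → L → ℤ
  add_left : ∀ x y z, B (x + y) z = B x z + B y z
  symm : ∀ x y, B x y = B y x
  pos : ∀ x, x ≠ 0 → 0 < B x x

namespace Lat

variable {L : Type*} [AddCommGroup L] (F : Lat L)

theorem add_right (x y z : L) : F.B x (y + z) = F.B x y + F.B x z := by
  rw [F.symm, F.add_left, F.symm y, F.symm z]

theorem zero_left (x : L) : F.B 0 x = 0 := by
  have := F.add_left 0 0 x
  rw [add_zero] at this
  omega

theorem zero_right (x : L) : F.B x 0 = 0 := by rw [F.symm, F.zero_left]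

theorem neg_left (x y : L) : F.B (-x) y = -F.B x y := by
  have := F.add_left (-x) x y
  rw [neg_add_cancel, F.zero_left] at this
  omega

theorem neg_right (x y : L) : F.B x (-y) = -F.B x y := by rw [F.symm, F.neg_left, F.symm]

theorem nonneg (x : L) : 0 ≤ F.B x x := by
  by_cases h : x = 0
  · rw [h, F.zero_left]
  · exact (F.pos x h).le

/-- irreducible vectors -/
def Irr (y : L) : Prop := y ≠ 0 ∧ ∀ a b, y = a + b → 0 ≤ F.B a b → a = 0 ∨ b = 0

theorem mem_closure (n : ℕ) : ∀ x : L, F.B x x ≤ n → x ∈ AddSubgroup.closure {y | F.Irr y} := by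
  induction n with
  | zero =>
    intro x hx
    have : x = 0 := by
      by_contra h
      have := F.pos x h
      simp only [Nat.cast_zero] at hx
      omega
    rw [this]
    exact zero_mem _
  | succ n ih =>
    intro x hx
    by_cases h0 : x = 0
    · rw [h0]; exact zero_mem _
    by_cases h1 : F.Irr x
    · exact AddSubgroup.subset_closure h1
    · unfold Irr at h1
      push Not at h1
      obtain ⟨a, b, hab, hB, ha, hb⟩ := h1 h0
      have ea := F.pos a ha
      have eb := F.pos b hb
      have e : F.B x x = F.B a a + 2 * F.B a b + F.B b b := by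
        rw [hab, F.add_left, F.add_right, F.add_right, F.symm b a]; ring
      push_cast at hx
      rw [hab]
      exact add_mem (ih a (by omega)) (ih b (by omega))

theorem closure_irr : AddSubgroup.closure {y | F.Irr y} = ⊤ := by
  rw [eq_top_iff]
  intro x _
  exact F.mem_closure (F.B x x).toNat x (Int.self_le_toNat _)

end Lat

section forms

variable {R : Type*} [Ring R] [StarRing R] {Γ : Type*} [Group Γ] {m n : ℕ}

/-- the form over `R` with Gram matrix `Q` -/
def hR (Q : Matrix (Fin m) (Fin m) R) (v w : Fin m → R) : R := ∑ i, ∑ j, v i * Q i j * star (w j)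

/-- the form over the group ring with Gram matrix `Q` -/
noncomputable def hG (Q : Matrix (Fin m) (Fin m) R) (x y : Fin m → MonoidAlgebra R Γ) :
    MonoidAlgebra R Γ :=
  ∑ i, ∑ j, x i * single 1 (Q i j) * rbar (y j)

theorem hR_add_left (Q : Matrix (Fin m) (Fin m) R) (u v w : Fin m → R) :
    hR Q (u + v) w = hR Q u w + hR Q v w := by
  unfold hR
  simp only [Pi.add_apply, add_mul, Finset.sum_add_distrib]

theorem hR_add_right (Q : Matrix (Fin m) (Fin m) R) (u v w : Fin m → R) :
    hR Q u (v + w) = hR Q u v + hR Q u w := by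
  unfold hR
  simp only [Pi.add_apply, star_add, mul_add, Finset.sum_add_distrib]

theorem hR_zero_left (Q : Matrix (Fin m) (Fin m) R) (w : Fin m → R) : hR Q 0 w = 0 := by
  simp [hR]

theorem hR_zero_right (Q : Matrix (Fin m) (Fin m) R) (w : Fin m → R) : hR Q w 0 = 0 := by
  simp [hR]

theorem hR_star {Q : Matrix (Fin m) (Fin m) R} (hQ : Qᴴ = Q) (v w : Fin m → R) :
    star (hR Q v w) = hR Q w v := by
  unfold hR
  rw [star_sum, Finset.sum_comm (f := fun i j => w i * Q i j * star (v j))]
  refine Finset.sum_congr rfl fun i _ => ?_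
  rw [star_sum]
  refine Finset.sum_congr rfl fun j _ => ?_
  rw [star_mul, star_mul, star_star, mul_assoc]
  congr 2
  have := congrFun (congrFun hQ j) i
  rw [conjTranspose_apply] at this
  exact this

theorem hG_add_left (Q : Matrix (Fin m) (Fin m) R) (x y z : Fin m → MonoidAlgebra R Γ) :
    hG Q (x + y) z = hG Q x z + hG Q y z := by
  unfold hG
  simp only [Pi.add_apply, add_mul, Finset.sum_add_distrib]

theorem hG_bar {Q : Matrix (Fin m) (Fin m) R} (hQ : Qᴴ = Q) (x y : Fin m → MonoidAlgebra R Γ) :
    rbar (hG Q x y) = hG Q y x := by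
  unfold hG
  rw [rbar_sum, Finset.sum_comm (f := fun i j => y i * single 1 (Q i j) * rbar (x j))]
  refine Finset.sum_congr rfl fun i _ => ?_
  rw [rbar_sum]
  refine Finset.sum_congr rfl fun j _ => ?_
  rw [rbar_mul, rbar_mul, rbar_rbar, mul_assoc, rbar_single, inv_one]
  congr 3
  have := congrFun (congrFun hQ j) i
  rw [conjTranspose_apply] at this
  exact this

/-- the coefficient vector -/
def at' (g : Γ) (x : Fin m → MonoidAlgebra R Γ) : Fin m → R := fun i => (x i).coeff g

/-- vectors with one coefficient -/
noncomputable def inj (g : Γ) (v : Fin m → R) : Fin m → MonoidAlgebra R Γ := fun i => single g (v i)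

theorem coeff_hG (Q : Matrix (Fin m) (Fin m) R) (x y : Fin m → MonoidAlgebra R Γ) (k : Γ)
    (S : Finset Γ) (hS : ∀ i, (x i).coeff.support ⊆ S) :
    (hG Q x y).coeff k = ∑ g ∈ S, hR Q (at' g x) (at' (k⁻¹ * g) y) := by
  unfold hG hR at'
  rw [coeff_sum, Finsupp.finsetSum_apply, Finset.sum_comm]
  refine Finset.sum_congr rfl fun i _ => ?_
  rw [coeff_sum, Finsupp.finsetSum_apply, Finset.sum_comm]
  refine Finset.sum_congr rfl fun j _ => ?_
  rw [mul_assoc, coeff_mul_apply_left, Finsupp.sum_of_support_subset _ (hS i) _ (by simp)]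
  refine Finset.sum_congr rfl fun g _ => ?_
  rw [coeff_single_mul_apply, coeff_rbar, mul_assoc]
  congr 4
  group

theorem at_inj_same (g : Γ) (v : Fin m → R) : at' g (inj g v) = v := by
  funext i
  unfold at' inj
  rw [coeff_single, Finsupp.single_eq_same]

theorem at_inj_ne {g k : Γ} (h : k ≠ g) (v : Fin m → R) : at' k (inj g v) = 0 := by
  funext i
  unfold at' inj
  rw [coeff_single, Finsupp.single_eq_of_ne h]
  rfl

theorem hG_inj (Q : Matrix (Fin m) (Fin m) R) (g k : Γ) (v w : Fin m → R) :
    hG Q (inj g v) (inj k w) = single (g * k⁻¹) (hR Q v w) := by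
  unfold hG hR inj
  rw [← singleAddHom_apply, map_sum]
  refine Finset.sum_congr rfl fun i _ => ?_
  rw [map_sum]
  refine Finset.sum_congr rfl fun j _ => ?_
  rw [rbar_single, single_mul_single, single_mul_single, mul_one, singleAddHom_apply]

theorem at_ext {x y : Fin m → MonoidAlgebra R Γ} (h : ∀ g, at' g x = at' g y) : x = y := by
  funext i
  exact ext_coeff fun g => congrFun (h g) i

theorem at_add (g : Γ) (x y : Fin m → MonoidAlgebra R Γ) : at' g (x + y) = at' g x + at' g y := by
  funext i
  unfold at'
  rw [Pi.add_apply, coeff_add, Finsupp.add_apply]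
  rfl

theorem at_sub (g : Γ) (x y : Fin m → MonoidAlgebra R Γ) : at' g (x - y) = at' g x - at' g y := by
  funext i
  unfold at'
  rw [Pi.sub_apply, coeff_sub, Finsupp.sub_apply]
  rfl

theorem at_zero (g : Γ) : at' g (0 : Fin m → MonoidAlgebra R Γ) = 0 := by
  funext i
  unfold at'
  rw [Pi.zero_apply, coeff_zero, Finsupp.zero_apply]
  rfl

open Classical in
/-- all positions -/
noncomputable def supp (x : Fin m → MonoidAlgebra R Γ) : Finset Γ :=
  Finset.univ.biUnion fun i => (x i).coeff.support

theorem subset_supp (x : Fin m → MonoidAlgebra R Γ) (i : Fin m) :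
    (x i).coeff.support ⊆ supp x := by
  classical
  exact Finset.subset_biUnion_of_mem (fun i => (x i).coeff.support) (Finset.mem_univ i)

theorem at_eq_zero {x : Fin m → MonoidAlgebra R Γ} {g : Γ} (hg : g ∉ supp x) : at' g x = 0 := by
  funext i
  unfold at'
  exact Finsupp.notMem_support_iff.1 fun h => hg (subset_supp x i h)

end forms

end Pool.Agent.V8H85.Iso
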