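import Mathlib

set_option autoImplicit false

/-! Group rings with coefficients in a ring with involution: definitions. -/

namespace Pool.Agent.V8H85.Iso

open MonoidAlgebra Matrix

section defs

variable {R : Type*} [Ring R] {Γ : Type*} [Group Γ]

/-- The involution `∑ r_g g ↦ ∑ (star r_g) g⁻¹` of the group ring `R[Γ]`. -/
noncomputable def rbar [StarRing R] (a : MonoidAlgebra R Γ) : MonoidAlgebra R Γ :=
  ∑ g ∈ a.coeff.support, single g⁻¹ (star (a.coeff g))

/-- The adjoint of a matrix over the group ring: transpose and apply the involution. -/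
noncomputable def adj [StarRing R] {m n : ℕ} (E : Matrix (Fin m) (Fin n) (MonoidAlgebra R Γ)) :
    Matrix (Fin n) (Fin m) (MonoidAlgebra R Γ) :=
  (E.map rbar)ᵀ

/-- The matrix `g · M` over the group ring, for a matrix `M` over `R` and a group element `g`. -/
noncomputable def sM {m n : ℕ} (g : Γ) (M : Matrix (Fin m) (Fin n) R) :
    Matrix (Fin m) (Fin n) (MonoidAlgebra R Γ) :=
  M.map (fun r => single g r)

/-- The hermitian matrix `Q` is positive definite with respect to the additive map `τ`:
`τ (∑ v_i Q_ij star v_j) > 0` for all `v ≠ 0`. -/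
def PosDefM [StarRing R] (τ : R →+ ℤ) {m : ℕ} (Q : Matrix (Fin m) (Fin m) R) : Prop :=
  ∀ v : Fin m → R, v ≠ 0 → 0 < τ (∑ i, ∑ j, v i * Q i j * star (v j))

end defs

end Pool.Agent.V8H85.Iso
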