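import Pool.Agent.V8H85.Iso.Main

set_option autoImplicit false
set_option linter.unusedSectionVars false

/-! Isometries of definite forms over group rings: the classification of the isometries. -/

namespace Pool.Agent.V8H85.Iso

open MonoidAlgebra Matrix

variable {R : Type*} [Ring R] [StarRing R] {Γ : Type*} [Group Γ]

section sM

variable {m n k : ℕ}

theorem sM_mul (g l : Γ) (M : Matrix (Fin m) (Fin n) R) (N : Matrix (Fin n) (Fin k) R) :
    sM g M * sM l N = sM (g * l) (M * N) := by
  ext1 i j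
  rw [Matrix.mul_apply]
  change _ = MonoidAlgebra.single (g * l) ((M * N) i j)
  rw [Matrix.mul_apply, ← singleAddHom_apply, map_sum]
  refine Finset.sum_congr rfl fun a _ => ?_
  change MonoidAlgebra.single g (M i a) * MonoidAlgebra.single l (N a j) = _
  rw [single_mul_single, singleAddHom_apply]

theorem sM_zero (g : Γ) : sM g (0 : Matrix (Fin m) (Fin n) R) = 0 := by
  ext1 i j
  exact MonoidAlgebra.single_zero _

theorem sM_add (g : Γ) (M N : Matrix (Fin m) (Fin n) R) : sM g (M + N) = sM g M + sM g N := by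
  ext1 i j
  exact MonoidAlgebra.single_add _ _ _

theorem sM_sum {α : Type*} (s : Finset α) (g : Γ) (f : α → Matrix (Fin m) (Fin n) R) :
    sM g (∑ a ∈ s, f a) = ∑ a ∈ s, sM g (f a) := by
  classical
  induction s using Finset.induction_on with
  | empty => simp only [Finset.sum_empty, sM_zero]
  | insert a s ha ih => rw [Finset.sum_insert ha, Finset.sum_insert ha, sM_add, ih]

theorem sM_one : sM (1 : Γ) (1 : Matrix (Fin m) (Fin m) R) = 1 := by
  classical
  ext1 i j
  change MonoidAlgebra.single 1 ((1 : Matrix (Fin m) (Fin m) R) i j) = _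
  rw [one_apply, one_apply]
  split_ifs
  · rfl
  · exact MonoidAlgebra.single_zero _

theorem adj_sM (g : Γ) (M : Matrix (Fin m) (Fin n) R) : adj (sM g M) = sM g⁻¹ Mᴴ := by
  ext1 i j
  exact rbar_single _ _

theorem adj_add (A B : Matrix (Fin m) (Fin n) (MonoidAlgebra R Γ)) :
    adj (A + B) = adj A + adj B := by
  ext1 i j
  exact rbar_add _ _

theorem adj_zero : adj (0 : Matrix (Fin m) (Fin n) (MonoidAlgebra R Γ)) = 0 := by
  ext1 i j
  exact rbar_zero

theorem adj_sum {α : Type*} (s : Finset α) (f : α → Matrix (Fin m) (Fin n) (MonoidAlgebra R Γ)) :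
    adj (∑ a ∈ s, f a) = ∑ a ∈ s, adj (f a) := by
  classical
  induction s using Finset.induction_on with
  | empty => simp only [Finset.sum_empty, adj_zero]
  | insert a s ha ih => rw [Finset.sum_insert ha, Finset.sum_insert ha, adj_add, ih]

/-- all positions of a matrix -/
theorem exists_support (E : Matrix (Fin m) (Fin n) (MonoidAlgebra R Γ)) :
    ∃ S : Finset Γ, (∀ g, g ∉ S → cM g E = 0) ∧ E = ∑ g ∈ S, sM g (cM g E) := by
  classical
  set S : Finset Γ := Finset.univ.biUnion fun i : Fin m =>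
    Finset.univ.biUnion fun j : Fin n => (E i j).coeff.support with hS
  have hsub : ∀ i j, (E i j).coeff.support ⊆ S := fun i j =>
    (Finset.subset_biUnion_of_mem (fun j : Fin n => (E i j).coeff.support)
      (Finset.mem_univ j)).trans (Finset.subset_biUnion_of_mem (fun i : Fin m =>
    Finset.univ.biUnion fun j : Fin n => (E i j).coeff.support) (Finset.mem_univ i))
  refine ⟨S, fun g hg => ?_, ?_⟩
  · ext1 i j
    exact Finsupp.notMem_support_iff.1 fun h => hg (hsub i j h)
  · ext1 i j
    rw [Matrix.sum_apply]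
    refine ext_coeff fun k => ?_
    rw [coeff_sum, Finsupp.finsetSum_apply]
    by_cases hk : k ∈ S
    · rw [Finset.sum_eq_single k]
      · change _ = (MonoidAlgebra.single k ((E i j).coeff k)).coeff k
        rw [coeff_single, Finsupp.single_eq_same]
      · intro b _ hb
        change (MonoidAlgebra.single b ((E i j).coeff b)).coeff k = 0
        rw [coeff_single, Finsupp.single_eq_of_ne hb.symm]
      · intro h; exact absurd hk h
    · rw [Finsupp.notMem_support_iff.1 fun h => hk (hsub i j h)]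
      refine (Finset.sum_eq_zero fun b hb => ?_).symm
      change (MonoidAlgebra.single b ((E i j).coeff b)).coeff k = 0
      rw [coeff_single, Finsupp.single_eq_of_ne]
      rintro rfl
      exact hk hb

end sM

/-- the augmentation -/
noncomputable def aug : MonoidAlgebra R Γ →+* R :=
  MonoidAlgebra.liftNCRingHom (RingHom.id R) (1 : Γ →* R) (fun _ _ => Commute.one_right _)

theorem aug_single (g : Γ) (r : R) : aug (MonoidAlgebra.single g r) = r := by
  unfold aug
  rw [liftNCRingHom_single]
  simp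

theorem aug_rbar (a : MonoidAlgebra R Γ) : aug (rbar a) = star (aug a) := by
  induction a using MonoidAlgebra.induction_linear with
  | zero => rw [rbar_zero, map_zero, star_zero]
  | add x y hx hy => rw [rbar_add, map_add, map_add, star_add, hx, hy]
  | single g r => rw [rbar_single, aug_single, aug_single]

theorem map_aug_adj {m n : ℕ} (E : Matrix (Fin m) (Fin n) (MonoidAlgebra R Γ)) :
    (adj E).map aug = (E.map aug)ᴴ := by
  ext1 i j
  exact aug_rbar _

theorem map_aug_sM {m n : ℕ} (g : Γ) (M : Matrix (Fin m) (Fin n) R) : (sM g M).map aug = M := by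
  ext1 i j
  exact aug_single _ _

/-- a positive definite matrix is not a left zero divisor -/
theorem eq_zero_of_mul {m n : ℕ} {τ : R →+ ℤ} {Q : Matrix (Fin m) (Fin m) R} (pQ : PosDefM τ Q)
    {M : Matrix (Fin n) (Fin m) R} (h : M * Q = 0) : M = 0 := by
  ext1 i j
  by_contra hne
  have hv : M i ≠ 0 := fun h0 => hne (congrFun h0 j)
  have h1 := pQ (M i) hv
  rw [Finset.sum_comm] at h1
  have h2 : ∀ b : Fin m, ∑ a, M i a * Q a b * star (M i b) = 0 := by
    intro b
    rw [← Finset.sum_mul]
    have := congrFun (congrFun h i) b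
    rw [Matrix.mul_apply] at this
    rw [this]
    exact zero_mul _
  rw [Finset.sum_congr rfl fun b _ => h2 b, Finset.sum_const_zero, map_zero] at h1
  exact lt_irrefl _ h1

/-- The classification of the isometries between definite forms which are induced from the
coefficient ring. -/
theorem final (τ : R →+ ℤ) (hτ : ∀ r, τ (star r) = τ r) {m n : ℕ}
    (Q : Matrix (Fin m) (Fin m) R) (Q' : Matrix (Fin n) (Fin n) R) (hQ : Qᴴ = Q) (hQ' : Q'ᴴ = Q')
    (pQ : PosDefM τ Q) (pQ' : PosDefM τ Q') (E : Matrix (Fin m) (Fin n) (MonoidAlgebra R Γ)) :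
    ((∃ E' : Matrix (Fin n) (Fin m) (MonoidAlgebra R Γ), E * E' = 1 ∧ E' * E = 1) ∧
      E * sM (1 : Γ) Q' * adj E = sM 1 Q) ↔
    ∃ (F : Matrix (Fin m) (Fin n) R) (S : Finset Γ) (π : Γ → Matrix (Fin m) (Fin m) R),
      (∃ F' : Matrix (Fin n) (Fin m) R, F * F' = 1 ∧ F' * F = 1) ∧ F * Q' * Fᴴ = Q ∧
      (∀ g ∈ S, ∀ h ∈ S, g ≠ h → π g * π h = 0) ∧ (∀ g ∈ S, π g * π g = π g) ∧
      ∑ g ∈ S, π g = 1 ∧ (∀ g ∈ S, π g * Q = Q * (π g)ᴴ) ∧
      E = ∑ g ∈ S, sM g (π g * F) := by
  classical
  constructor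
  · rintro ⟨⟨E', h1, h2⟩, hE⟩
    obtain ⟨S, hS, hES⟩ := exists_support E
    set F := E.map aug with hF
    set F' := E'.map aug with hF'
    have f1 : F * F' = 1 := by
      rw [hF, hF', ← Matrix.map_mul, h1, Matrix.map_one aug (map_zero _) (map_one _)]
    have f2 : F' * F = 1 := by
      rw [hF, hF', ← Matrix.map_mul, h2, Matrix.map_one aug (map_zero _) (map_one _)]
    have f3 : F * Q' * Fᴴ = Q := by
      have := congrArg (fun M => M.map aug) hE
      simp only [Matrix.map_mul, map_aug_adj, map_aug_sM] at this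
      exact this
    have f4 : F' * Q * F'ᴴ = Q' := by
      have e1 : Fᴴ * F'ᴴ = 1 := by rw [← conjTranspose_mul, f2, conjTranspose_one]
      rw [← f3]
      calc F' * (F * Q' * Fᴴ) * F'ᴴ = (F' * F) * Q' * (Fᴴ * F'ᴴ) := by
            simp only [Matrix.mul_assoc]
        _ = Q' := by rw [f2, e1, Matrix.one_mul, Matrix.mul_one]
    have hsum : ∑ g ∈ S, cM g E = F := by
      have := congrArg (fun M => M.map aug) hES
      rw [hF]
      refine Eq.trans ?_ this.symm
      change _ = (∑ g ∈ S, sM g (cM g E)).map aug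
      ext1 i j
      rw [map_apply, Matrix.sum_apply, Matrix.sum_apply, map_sum]
      exact Finset.sum_congr rfl fun g _ => (aug_single g _).symm
    set π : Γ → Matrix (Fin m) (Fin m) R := fun g => cM g E * F' with hπ
    have p1 : ∑ g ∈ S, π g = 1 := by
      rw [hπ, ← Matrix.sum_mul, hsum, f1]
    have p2 : ∀ g h, g ≠ h → π g * Q * (π h)ᴴ = 0 := by
      intro g h hgh
      have := orth τ hτ hQ hQ' pQ pQ' h1 h2 hE hgh
      rw [← f4] at this
      rw [← this]
      simp only [hπ, conjTranspose_mul, Matrix.mul_assoc]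
    have p3 : ∀ g ∈ S, π g * Q = π g * Q * (π g)ᴴ := by
      intro g hg
      have e1 : π g * Q = π g * Q * (∑ h ∈ S, π h)ᴴ := by
        rw [p1, conjTranspose_one, Matrix.mul_one]
      rw [conjTranspose_sum, Matrix.mul_sum, Finset.sum_eq_single g] at e1
      · exact e1
      · intro b _ hb; exact p2 g b hb.symm
      · intro h; exact absurd hg h
    have p4 : ∀ g ∈ S, Q * (π g)ᴴ = π g * Q * (π g)ᴴ := by
      intro g hg
      have e1 : Q * (π g)ᴴ = (∑ h ∈ S, π h) * (Q * (π g)ᴴ) := by
        rw [p1, Matrix.one_mul]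
      rw [Matrix.sum_mul, Finset.sum_eq_single g] at e1
      · rw [← Matrix.mul_assoc] at e1; exact e1
      · intro b _ hb; rw [← Matrix.mul_assoc]; exact p2 b g hb
      · intro h; exact absurd hg h
    have p5 : ∀ g ∈ S, π g * Q = Q * (π g)ᴴ := fun g hg => by rw [p4 g hg]; exact p3 g hg
    have p6 : ∀ g ∈ S, ∀ h ∈ S, g ≠ h → π g * π h = 0 := by
      intro g _ h hh hgh
      apply eq_zero_of_mul pQ
      rw [Matrix.mul_assoc, p5 h hh, ← Matrix.mul_assoc]
      exact p2 g h hgh
    have p7 : ∀ g ∈ S, π g * π g = π g := by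
      intro g hg
      have e1 : π g = π g * ∑ h ∈ S, π h := by rw [p1, Matrix.mul_one]
      rw [Matrix.mul_sum, Finset.sum_eq_single g] at e1
      · exact e1.symm
      · intro b hb hbg; exact p6 g hg b hb hbg.symm
      · intro h; exact absurd hg h
    refine ⟨F, S, π, ⟨F', f1, f2⟩, f3, p6, p7, p1, p5, ?_⟩
    conv_lhs => rw [hES]
    refine Finset.sum_congr rfl fun g _ => ?_
    rw [hπ]
    simp only
    rw [Matrix.mul_assoc, f2, Matrix.mul_one]
  · rintro ⟨F, S, π, ⟨F', f1, f2⟩, f3, p6, p7, p1, p5, rfl⟩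
    refine ⟨⟨∑ g ∈ S, sM g⁻¹ (F' * π g), ?_, ?_⟩, ?_⟩
    · rw [Matrix.sum_mul]
      have e1 : ∀ g ∈ S, sM g (π g * F) * ∑ h ∈ S, sM h⁻¹ (F' * π h) = sM 1 (π g) := by
        intro g hg
        rw [Matrix.mul_sum, Finset.sum_eq_single g]
        · rw [sM_mul, mul_inv_cancel, Matrix.mul_assoc, ← Matrix.mul_assoc F, f1, Matrix.one_mul,
            p7 g hg]
        · intro b hb hbg
          rw [sM_mul, Matrix.mul_assoc, ← Matrix.mul_assoc F, f1, Matrix.one_mul,
            p6 g hg b hb hbg.symm, sM_zero]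
        · intro h; exact absurd hg h
      rw [Finset.sum_congr rfl e1, ← sM_sum, p1, sM_one]
    · rw [Matrix.sum_mul]
      have e1 : ∀ g ∈ S, sM g⁻¹ (F' * π g) * ∑ h ∈ S, sM h (π h * F) = sM 1 (F' * π g * F) := by
        intro g hg
        rw [Matrix.mul_sum, Finset.sum_eq_single g]
        · rw [sM_mul, inv_mul_cancel, Matrix.mul_assoc, ← Matrix.mul_assoc (π g), p7 g hg,
            ← Matrix.mul_assoc]
        · intro b hb hbg
          rw [sM_mul, Matrix.mul_assoc, ← Matrix.mul_assoc (π g), p6 g hg b hb hbg.symm,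
            Matrix.zero_mul, Matrix.mul_zero, sM_zero]
        · intro h; exact absurd hg h
      rw [Finset.sum_congr rfl e1, ← sM_sum, ← Matrix.sum_mul, ← Matrix.mul_sum, p1,
        Matrix.mul_one, f2, sM_one]
    · rw [adj_sum, Matrix.sum_mul, Matrix.sum_mul]
      have e1 : ∀ g ∈ S, sM g (π g * F) * sM (1 : Γ) Q' * ∑ h ∈ S, adj (sM h (π h * F)) =
          sM 1 (π g * Q) := by
        intro g hg
        have e2 : ∀ h ∈ S, sM g (π g * F) * sM (1 : Γ) Q' * adj (sM h (π h * F)) =
            sM (g * h⁻¹) (π g * π h * Q) := by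
          intro h hh
          rw [adj_sM, sM_mul, sM_mul, mul_one, conjTranspose_mul]
          congr 1
          rw [Matrix.mul_assoc (π g) (π h), p5 h hh, ← f3]
          simp only [Matrix.mul_assoc]
        rw [Matrix.mul_sum, Finset.sum_congr rfl e2, Finset.sum_eq_single g]
        · rw [mul_inv_cancel, p7 g hg]
        · intro b hb hbg
          rw [p6 g hg b hb hbg.symm, Matrix.zero_mul, sM_zero]
        · intro h; exact absurd hg h
      rw [Finset.sum_congr rfl e1, ← sM_sum, ← Matrix.sum_mul, p1, Matrix.one_mul]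

end Pool.Agent.V8H85.Iso
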