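import Pool.Agent.V8H85.Iso.Basic

set_option autoImplicit false
set_option linter.unusedSectionVars false

/-! Isometries of definite forms over group rings: the main theorem. -/

namespace Pool.Agent.V8H85.Iso

open MonoidAlgebra Matrix

variable {R : Type*} [Ring R] [StarRing R] {Γ : Type*} [Group Γ] {m n : ℕ}

/-- the lattice `R^m` -/
def latR (τ : R →+ ℤ) (hτ : ∀ r, τ (star r) = τ r) (Q : Matrix (Fin m) (Fin m) R) (hQ : Qᴴ = Q)
    (pQ : PosDefM τ Q) : Lat (Fin m → R) where
  B v w := τ (hR Q v w)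
  add_left x y z := by rw [hR_add_left, map_add]
  symm x y := by rw [← hR_star hQ, hτ]
  pos x hx := pQ x hx

theorem hG_coeff_one (τ : R →+ ℤ) (Q : Matrix (Fin m) (Fin m) R) (x y : Fin m → MonoidAlgebra R Γ)
    (S : Finset Γ) (hS : supp x ⊆ S) :
    τ ((hG Q x y).coeff 1) = ∑ g ∈ S, τ (hR Q (at' g x) (at' g y)) := by
  rw [coeff_hG Q x y 1 S fun i => (subset_supp x i).trans hS, map_sum]
  refine Finset.sum_congr rfl fun g _ => ?_
  rw [inv_one, one_mul]

/-- the lattice over the group ring -/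
noncomputable def latG (τ : R →+ ℤ) (hτ : ∀ r, τ (star r) = τ r) (Q : Matrix (Fin m) (Fin m) R)
    (hQ : Qᴴ = Q) (pQ : PosDefM τ Q) : Lat (Fin m → MonoidAlgebra R Γ) where
  B x y := τ ((hG Q x y).coeff 1)
  add_left x y z := by rw [hG_add_left, coeff_add, Finsupp.add_apply, map_add]
  symm x y := by rw [← hG_bar hQ, coeff_rbar, inv_one, hτ]
  pos x hx := by
    rw [hG_coeff_one τ Q x x (supp x) (Finset.Subset.refl _)]
    have h0 : ∀ g ∈ supp x, 0 ≤ τ (hR Q (at' g x) (at' g x)) := fun g _ =>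
      (latR τ hτ Q hQ pQ).nonneg (at' g x)
    refine lt_of_le_of_ne (Finset.sum_nonneg h0) fun h1 => hx ?_
    have h2 := (Finset.sum_eq_zero_iff_of_nonneg h0).1 h1.symm
    refine at_ext fun g => ?_
    rw [at_zero]
    by_cases hg : g ∈ supp x
    · by_contra h3
      exact absurd (h2 g hg) ((latR τ hτ Q hQ pQ).pos (at' g x) h3).ne'
    · exact at_eq_zero hg

section

variable (τ : R →+ ℤ) (hτ : ∀ r, τ (star r) = τ r)

theorem inj_add (g : Γ) (v w : Fin m → R) : inj g (v + w) = inj g v + inj g w := by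
  funext i
  exact MonoidAlgebra.single_add _ _ _

theorem inj_zero (g : Γ) : inj g (0 : Fin m → R) = 0 := by
  funext i
  exact MonoidAlgebra.single_zero _

/-- Irreducible vectors over `R` stay irreducible over the group ring. -/
theorem irr_inj {Q : Matrix (Fin m) (Fin m) R} (hQ : Qᴴ = Q) (pQ : PosDefM τ Q) {v : Fin m → R}
    (hv : (latR τ hτ Q hQ pQ).Irr v) : (latG (Γ := Γ) τ hτ Q hQ pQ).Irr (inj 1 v) := by
  classical
  refine ⟨fun h => hv.1 ?_, fun a b hab hB => ?_⟩
  · rw [← at_inj_same (1 : Γ) v, h, at_zero]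
  · have h1 : v = at' 1 a + at' 1 b := by rw [← at_add, ← hab, at_inj_same]
    have h2 : ∀ g : Γ, g ≠ 1 → at' g b = -at' g a := fun g hg => by
      have := congrArg (at' g) hab
      rw [at_inj_ne hg, at_add] at this
      exact eq_neg_of_add_eq_zero_right this.symm
    set F := latR τ hτ Q hQ pQ with hF
    have h3 : (latG (Γ := Γ) τ hτ Q hQ pQ).B a b =
        F.B (at' 1 a) (at' 1 b) - ∑ g ∈ (insert 1 (supp a)).erase 1, F.B (at' g a) (at' g a) := by
      change τ ((hG Q a b).coeff 1) = _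
      rw [hG_coeff_one τ Q a b (insert 1 (supp a)) (Finset.subset_insert _ _),
        ← Finset.add_sum_erase _ _ (Finset.mem_insert_self 1 (supp a)), sub_eq_add_neg,
        ← Finset.sum_neg_distrib]
      congr 1
      refine Finset.sum_congr rfl fun g hg => ?_
      rw [← F.neg_right, ← h2 g (Finset.ne_of_mem_erase hg)]
      rfl
    have h4 : 0 ≤ ∑ g ∈ (insert 1 (supp a)).erase 1, F.B (at' g a) (at' g a) :=
      Finset.sum_nonneg fun g _ => F.nonneg _
    have h5 : 0 ≤ F.B (at' 1 a) (at' 1 b) := by omega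
    have h6 := hv.2 _ _ h1 h5
    have h7 : F.B (at' 1 a) (at' 1 b) = 0 := by
      rcases h6 with h | h
      · rw [h, F.zero_left]
      · rw [h, F.zero_right]
    have h8 : ∑ g ∈ (insert 1 (supp a)).erase 1, F.B (at' g a) (at' g a) = 0 := by omega
    have h9 : ∀ g : Γ, g ≠ 1 → at' g a = 0 := by
      intro g hg
      by_cases hgs : g ∈ supp a
      · have := (Finset.sum_eq_zero_iff_of_nonneg fun k _ => F.nonneg (at' k a)).1 h8 g
          (Finset.mem_erase.2 ⟨hg, Finset.mem_insert_of_mem hgs⟩)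
        by_contra h
        exact absurd this (F.pos _ h).ne'
      · exact at_eq_zero hgs
    rcases h6 with h | h
    · left
      refine at_ext fun g => ?_
      rw [at_zero]
      by_cases hg : g = 1
      · rw [hg, h]
      · exact h9 g hg
    · right
      refine at_ext fun g => ?_
      rw [at_zero]
      by_cases hg : g = 1
      · rw [hg, h]
      · rw [h2 g hg, h9 g hg, neg_zero]

/-- Irreducible vectors over the group ring have one position. -/
theorem irr_one {Q : Matrix (Fin m) (Fin m) R} (hQ : Qᴴ = Q) (pQ : PosDefM τ Q)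
    {u : Fin m → MonoidAlgebra R Γ} (hu : (latG τ hτ Q hQ pQ).Irr u) :
    ∃ g : Γ, u = inj g (at' g u) := by
  classical
  obtain ⟨g, hg⟩ : ∃ g, at' g u ≠ 0 := by
    by_contra h
    push Not at h
    exact hu.1 (at_ext fun g => by rw [h g, at_zero])
  refine ⟨g, ?_⟩
  have h1 : u = inj g (at' g u) + (u - inj g (at' g u)) := by abel
  have h2 : 0 ≤ (latG τ hτ Q hQ pQ).B (inj g (at' g u)) (u - inj g (at' g u)) := by
    change 0 ≤ τ ((hG Q _ _).coeff 1)
    rw [hG_coeff_one τ Q _ _ (supp (inj g (at' g u)) : Finset Γ) (Finset.Subset.refl _)]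
    refine Finset.sum_nonneg fun k _ => ?_
    by_cases hk : k = g
    · rw [hk, at_sub, at_inj_same, sub_self, hR_zero_right, map_zero]
    · rw [at_inj_ne hk, hR_zero_left, map_zero]
  rcases hu.2 _ _ h1 h2 with h | h
  · exfalso
    apply hg
    have := congrArg (at' g) h
    rwa [at_inj_same, at_zero] at this
  · exact sub_eq_zero.1 h

/-- the action of a matrix on row vectors preserves the forms -/
theorem hG_vecMul {Q : Matrix (Fin m) (Fin m) R} {Q' : Matrix (Fin n) (Fin n) R}
    {E : Matrix (Fin m) (Fin n) (MonoidAlgebra R Γ)} (hE : E * sM (1 : Γ) Q' * adj E = sM 1 Q)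
    (x y : Fin m → MonoidAlgebra R Γ) : hG Q' (x ᵥ* E) (y ᵥ* E) = hG Q x y := by
  have h1 : ∀ {k : ℕ} (P : Matrix (Fin k) (Fin k) R) (z w : Fin k → MonoidAlgebra R Γ),
      hG P z w = z ⬝ᵥ (sM 1 P *ᵥ fun j => rbar (w j)) := by
    intro k P z w
    unfold hG dotProduct mulVec dotProduct sM
    refine Finset.sum_congr rfl fun i _ => ?_
    rw [Finset.mul_sum]
    refine Finset.sum_congr rfl fun j _ => ?_
    exact mul_assoc _ _ _
  have h2 : (fun j => rbar ((y ᵥ* E) j)) = adj E *ᵥ fun j => rbar (y j) := by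
    funext j
    unfold vecMul dotProduct adj mulVec dotProduct
    rw [rbar_sum]
    refine Finset.sum_congr rfl fun i _ => ?_
    exact rbar_mul _ _
  rw [h1, h1, h2, mulVec_mulVec, ← dotProduct_mulVec, mulVec_mulVec, ← hE, Matrix.mul_assoc]

/-- the coefficient matrices -/
noncomputable def cM (g : Γ) (E : Matrix (Fin m) (Fin n) (MonoidAlgebra R Γ)) :
    Matrix (Fin m) (Fin n) R := E.map fun a => a.coeff g

theorem at_inj_vecMul (g : Γ) (v : Fin m → R) (E : Matrix (Fin m) (Fin n) (MonoidAlgebra R Γ)) :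
    at' g (inj 1 v ᵥ* E) = v ᵥ* cM g E := by
  funext j
  unfold at' inj vecMul dotProduct cM
  rw [coeff_sum, Finsupp.finsetSum_apply]
  refine Finset.sum_congr rfl fun i _ => ?_
  rw [coeff_single_mul_apply, inv_one, one_mul]
  rfl

theorem hR_mul (Q' : Matrix (Fin n) (Fin n) R) (A C : Matrix (Fin m) (Fin n) R) (v w : Fin m → R) :
    hR Q' (v ᵥ* A) (w ᵥ* C) = hR (A * Q' * Cᴴ) v w := by
  have h1 : ∀ {k : ℕ} (P : Matrix (Fin k) (Fin k) R) (z w : Fin k → R),
      hR P z w = z ⬝ᵥ (P *ᵥ star w) := by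
    intro k P z w
    unfold hR dotProduct mulVec dotProduct
    refine Finset.sum_congr rfl fun i _ => ?_
    rw [Finset.mul_sum]
    exact Finset.sum_congr rfl fun j _ => mul_assoc _ _ _
  rw [h1, h1, star_vecMul, mulVec_mulVec, ← dotProduct_mulVec, mulVec_mulVec, Matrix.mul_assoc]

theorem hR_single (M : Matrix (Fin m) (Fin m) R) (i j : Fin m) :
    hR M (Pi.single i 1) (Pi.single j 1) = M i j := by
  classical
  unfold hR
  rw [Finset.sum_eq_single i, Finset.sum_eq_single j]
  · rw [Pi.single_eq_same, Pi.single_eq_same, star_one, one_mul, mul_one]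
  · intro b _ hb
    rw [Pi.single_eq_of_ne hb, star_zero, mul_zero]
  · intro h; exact absurd (Finset.mem_univ j) h
  · intro a _ ha
    refine Finset.sum_eq_zero fun b _ => ?_
    rw [Pi.single_eq_of_ne ha, zero_mul, zero_mul]
  · intro h; exact absurd (Finset.mem_univ i) h

include hτ in
/-- the key orthogonality -/
theorem orth {Q : Matrix (Fin m) (Fin m) R} {Q' : Matrix (Fin n) (Fin n) R} (hQ : Qᴴ = Q)
    (hQ' : Q'ᴴ = Q') (pQ : PosDefM τ Q) (pQ' : PosDefM τ Q')
    {E : Matrix (Fin m) (Fin n) (MonoidAlgebra R Γ)} {E' : Matrix (Fin n) (Fin m) (MonoidAlgebra R Γ)}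
    (h1 : E * E' = 1) (h2 : E' * E = 1) (hE : E * sM (1 : Γ) Q' * adj E = sM 1 Q) {γ δ : Γ}
    (hγδ : γ ≠ δ) : cM γ E * Q' * (cM δ E)ᴴ = 0 := by
  classical
  -- irreducible vectors are mapped to irreducible vectors
  have himg : ∀ v : Fin m → R, (latR τ hτ Q hQ pQ).Irr v →
      ∃ g : Γ, inj 1 v ᵥ* E = inj g (at' g (inj 1 v ᵥ* E)) := by
    intro v hv
    have hi := irr_inj (Γ := Γ) τ hτ hQ pQ hv
    refine irr_one τ hτ hQ' pQ' ⟨fun h0 => hi.1 ?_, fun a b hab hB => ?_⟩
    · have := congrArg (fun z => z ᵥ* E') h0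
      change (inj 1 v ᵥ* E) ᵥ* E' = 0 ᵥ* E' at this
      rwa [vecMul_vecMul, h1, vecMul_one, zero_vecMul] at this
    · have e1 : inj 1 v = a ᵥ* E' + b ᵥ* E' := by
        rw [← add_vecMul, ← hab, vecMul_vecMul, h1, vecMul_one]
      have e2 : ∀ z : Fin n → MonoidAlgebra R Γ, (z ᵥ* E') ᵥ* E = z := fun z => by
        rw [vecMul_vecMul, h2, vecMul_one]
      have e3 : (latG (Γ := Γ) τ hτ Q hQ pQ).B (a ᵥ* E') (b ᵥ* E') = (latG τ hτ Q' hQ' pQ').B a b := by
        change τ ((hG Q _ _).coeff 1) = τ ((hG Q' _ _).coeff 1)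
        rw [← hG_vecMul hE, e2, e2]
      rcases hi.2 _ _ e1 (by rw [e3]; exact hB) with h | h
      · left; rw [← e2 a, h, zero_vecMul]
      · right; rw [← e2 b, h, zero_vecMul]
  -- orthogonality for irreducible vectors
  have hirr : ∀ v w : Fin m → R, (latR τ hτ Q hQ pQ).Irr v → (latR τ hτ Q hQ pQ).Irr w →
      hR Q' (v ᵥ* cM γ E) (w ᵥ* cM δ E) = 0 := by
    intro v w hv hw
    obtain ⟨g, hg⟩ := himg v hv
    obtain ⟨k, hk⟩ := himg w hw
    rw [← at_inj_vecMul, ← at_inj_vecMul]
    by_cases hgγ : γ = g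
    · by_cases hkδ : δ = k
      · have e1 := hG_vecMul hE (inj 1 v) (inj 1 w)
        rw [hg, hk, hG_inj, hG_inj] at e1
        have e2 := congrArg (fun a => a.coeff (g * k⁻¹)) e1
        simp only [coeff_single] at e2
        rw [Finsupp.single_eq_same, Finsupp.single_eq_of_ne] at e2
        · rw [hgγ, hkδ]; exact e2
        · rw [inv_one, mul_one]
          intro h
          apply hγδ
          rw [hgγ, hkδ]
          exact (mul_inv_eq_one.1 h)
      · have : at' δ (inj 1 w ᵥ* E) = 0 := by rw [hk]; exact at_inj_ne hkδ _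
        rw [this, hR_zero_right]
    · have : at' γ (inj 1 v ᵥ* E) = 0 := by rw [hg]; exact at_inj_ne hgγ _
      rw [this, hR_zero_left]
  -- for all vectors
  set M := cM γ E * Q' * (cM δ E)ᴴ with hM
  have hall : ∀ v w : Fin m → R, hR M v w = 0 := by
    have hcl := (latR τ hτ Q hQ pQ).closure_irr
    have step1 : ∀ v : Fin m → R, (latR τ hτ Q hQ pQ).Irr v → ∀ w, hR M v w = 0 := by
      intro v hv w
      have hw : w ∈ AddSubgroup.closure {y | (latR τ hτ Q hQ pQ).Irr y} := by rw [hcl]; trivial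
      induction hw using AddSubgroup.closure_induction with
      | mem x hx => rw [hM, ← hR_mul]; exact hirr v x hv hx
      | zero => exact hR_zero_right _ _
      | add x y _ _ hx hy => rw [hR_add_right, hx, hy, add_zero]
      | neg x _ hx =>
        have := hR_add_right M v (-x) x
        rw [neg_add_cancel, hR_zero_right, hx, add_zero] at this
        exact this.symm
    intro v w
    have hv : v ∈ AddSubgroup.closure {y | (latR τ hτ Q hQ pQ).Irr y} := by rw [hcl]; trivial
    induction hv using AddSubgroup.closure_induction with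
    | mem x hx => exact step1 x hx w
    | zero => exact hR_zero_left _ _
    | add x y _ _ hx hy => rw [hR_add_left, hx, hy, add_zero]
    | neg x _ hx =>
      have := hR_add_left M (-x) x w
      rw [neg_add_cancel, hR_zero_left, hx, add_zero] at this
      exact this.symm
  ext i j
  rw [← hR_single M i j, hall]
  rfl

end

end Pool.Agent.V8H85.Iso
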